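import Mathlib
import Pool.Agent.Q254.AGP.Stm
import Pool.Agent.Y353.PS.Page

/-!
# Project AGP (helper254), job PG: primes `1` modulo `d`
-/

set_option autoImplicit false

open Finset

namespace Pool.Agent.Q225.AGP

open Pool.Agent.Q254.AGP

theorem pg : S_PG := by
  obtain ⟨K, c, hK, hc, h⟩ := Pool.Agent.Y353.PS.page
  refine ⟨K, c, hK, hc, ?_⟩
  obtain ⟨z0, h0⟩ := h 0
  refine ⟨z0, fun z hz => ?_⟩
  obtain ⟨q, hq, hp⟩ := h0 z hz
  rw [pow_zero] at hq
  have hq1 : q ≠ 1 := by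
    rintro rfl
    norm_num at hq
  refine ⟨q.minFac, Nat.minFac_prime hq1, fun d hd hdz hld => ?_⟩
  have h1 := hp d 1 hd hdz (fun hdvd => hld ((Nat.minFac_dvd q).trans hdvd)) (Nat.coprime_one_left d)
  have h2 : (0 : ℝ) < (d.totient : ℝ) := by exact_mod_cast Nat.totient_pos.2 hd
  have h3 : (d.totient : ℝ) ≤ (d : ℝ) := by exact_mod_cast Nat.totient_le d
  refine (div_le_div_of_nonneg_left hc.le h2 h3).trans (h1.trans (le_of_eq ?_))
  refine Finset.sum_congr ?_ (fun _ _ => rfl)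
  ext p
  simp only [Finset.mem_filter]

end Pool.Agent.Q225.AGP
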